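import Pool.Agent.W823.QT.Defs

/-!
# MP_26aa9e_pr: statements of the steps (project QT)
-/

set_option autoImplicit false

namespace Pool.Agent.W823.QT

open MeasureTheory ProbabilityTheory Filter Topology Pool.Agent.W845.Traps
open scoped ENNReal NNReal

universe u v

/-! ## Walks with i.i.d. steps, arcs -/

/-- the law of an i.i.d. sequence of steps -/
noncomputable def iid {d : ℕ} (q : Measure (Fin d → ℤ)) : Measure (ℕ → Fin d → ℤ) :=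
  Measure.infinitePi fun _ : ℕ => q

/-- position after `k` steps -/
def pos {d : ℕ} (a : ℕ → Fin d → ℤ) (k : ℕ) : Fin d → ℤ := ∑ i ∈ Finset.range k, a i

/-- the steps after time `s` -/
def sh {d : ℕ} (s : ℕ) (a : ℕ → Fin d → ℤ) : ℕ → Fin d → ℤ := fun i => a (s + i)

/-- the arcs `(s, t)`, `0 ≤ s < t ≤ n` -/
def arcs (n : ℕ) : Finset (ℕ × ℕ) :=
  ((Finset.range (n + 1)) ×ˢ (Finset.range (n + 1))).filter fun e => e.1 < e.2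

/-- the weight of an arc, for the path with steps `a` -/
def aw {d : ℕ} (η : ℕ → (ℕ → Fin d → ℤ) → ℝ≥0∞) (a : ℕ → Fin d → ℤ) (e : ℕ × ℕ) : ℝ≥0∞ :=
  η (e.2 - e.1) (pos (sh e.1 a))

noncomputable def V {d : ℕ} (η : ℕ → (ℕ → Fin d → ℤ) → ℝ≥0∞) (n : ℕ) (a : ℕ → Fin d → ℤ) : ℝ≥0∞ :=
  ∏ e ∈ arcs n, (1 + aw η a e)

noncomputable def A {d : ℕ} (q : Measure (Fin d → ℤ)) (η : ℕ → (ℕ → Fin d → ℤ) → ℝ≥0∞) (n : ℕ) :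
    ℝ≥0∞ :=
  ∫⁻ a, V η n a ∂(iid q)

/-- `η k z` depends on `z 0, ..., z k` only -/
def Loc {d : ℕ} (η : ℕ → (ℕ → Fin d → ℤ) → ℝ≥0∞) : Prop :=
  ∀ k z z', (∀ i ≤ k, z i = z' i) → η k z = η k z'

/-- `η` is invariant under the point reflection -/
def SymW {d : ℕ} (η : ℕ → (ℕ → Fin d → ℤ) → ℝ≥0∞) : Prop := ∀ k z, η k (fun i => -(z i)) = η k z

/-- total weight of the sets of arcs -/
noncomputable def wsum (w : ℕ × ℕ → ℝ≥0∞) (n : ℕ) (f : Finset (ℕ × ℕ) → ℝ≥0∞) : ℝ≥0∞ :=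
  ∑ S ∈ (arcs n).powerset, (∏ e ∈ S, w e) * f S

/-- the number of free steps among the first `i` -/
def free (i : ℕ) (S : Finset (ℕ × ℕ)) : ℕ :=
  ((Finset.range i).filter fun k => ∀ e ∈ S, ¬ (e.1 ≤ k ∧ k < e.2)).card

/-- every vertex strictly between `0` and `l` is crossed -/
def Irr (l : ℕ) (S : Finset (ℕ × ℕ)) : Prop := ∀ v, 0 < v → v < l → ∃ e ∈ S, e.1 < v ∧ v < e.2

open Classical in
/-- indicator -/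
noncomputable def ind (p : Prop) : ℝ≥0∞ := if p then 1 else 0

/-- translation invariant weights -/
def lw (ε : ℕ → ℝ≥0∞) (e : ℕ × ℕ) : ℝ≥0∞ := ε (e.2 - e.1)

/-- expectation with respect to independent arcs, odds `ε` -/
noncomputable def EE (ε : ℕ → ℝ≥0∞) (n : ℕ) (f : Finset (ℕ × ℕ) → ℝ≥0∞) : ℝ≥0∞ :=
  wsum (lw ε) n f / ∏ e ∈ arcs n, (1 + lw ε e)

/-- total weight of the irreducible sets of arcs -/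
noncomputable def kk (w : ℕ × ℕ → ℝ≥0∞) (l : ℕ) : ℝ≥0∞ := wsum w l fun S => ind (Irr l S)

/-- smallness of `ε` -/
def Small (ε : ℕ → ℝ≥0∞) : Prop := (∀ k, ε k ≠ ∞) ∧ ∑' k : ℕ, (k : ℝ≥0∞) * ε k ≤ 1 / 8

noncomputable def Ex (t : ℝ≥0∞) : ℝ≥0∞ := EReal.exp (t : EReal)

noncomputable def En (t : ℝ≥0∞) : ℝ≥0∞ := EReal.exp (-(t : EReal))

noncomputable def sq (z : ℤ) : ℝ≥0∞ := ENNReal.ofReal ((z : ℝ) ^ 2)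

/-! ## The i.i.d. measure -/

/-- local functions are measurable -/
def MEAS_T : Prop := ∀ (d n : ℕ) (f : (ℕ → Fin d → ℤ) → ℝ≥0∞),
  (∀ a b : ℕ → Fin d → ℤ, (∀ i < n, a i = b i) → f a = f b) → Measurable f

/-- Markov property -/
def MARK_T : Prop := ∀ (d : ℕ) (q : Measure (Fin d → ℤ)) [IsProbabilityMeasure q] (n : ℕ)
  (F : (ℕ → Fin d → ℤ) → (ℕ → Fin d → ℤ) → ℝ≥0∞), Measurable (Function.uncurry F) →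
  (∀ a a' b : ℕ → Fin d → ℤ, (∀ i < n, a i = a' i) → F a b = F a' b) →
  ∫⁻ a, F a (sh n a) ∂(iid q) = ∫⁻ a, ∫⁻ b, F a b ∂(iid q) ∂(iid q)

/-- resampling of the coordinates in `U` -/
def MIX_T : Prop := ∀ (d : ℕ) (q : Measure (Fin d → ℤ)) [IsProbabilityMeasure q] (U : Finset ℕ)
  (H : (ℕ → Fin d → ℤ) → ℝ≥0∞), Measurable H →
  ∫⁻ a, H a ∂(iid q) = ∫⁻ a, ∫⁻ b, H (fun i => if i ∈ U then b i else a i) ∂(iid q) ∂(iid q)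

def SUML_T : Prop := ∀ (d : ℕ) (q : Measure (Fin d → ℤ)) [IsProbabilityMeasure q] (s : Finset ℕ)
  (ψ : (Fin d → ℤ) → ℝ≥0∞),
  ∫⁻ b, ψ (∑ i ∈ s, b i) ∂(iid q) = ∫⁻ b, ψ (pos b s.card) ∂(iid q)

/-- flipping the sign of the first `n` steps -/
def FLIP_T : Prop := ∀ (d : ℕ) (q : Measure (Fin d → ℤ)) [IsProbabilityMeasure q],
  q.map (fun x => -x) = q → ∀ (n : ℕ) (H : (ℕ → Fin d → ℤ) → ℝ≥0∞), Measurable H →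
  ∫⁻ a, H (fun i => if i < n then -(a i) else a i) ∂(iid q) = ∫⁻ a, H a ∂(iid q)

/-! ## Arcs -/

/-- stochastic domination -/
def DOM_T : Prop := ∀ (E : Finset (ℕ × ℕ)) (w w' : ℕ × ℕ → ℝ≥0∞), (∀ e ∈ E, w e ≤ w' e) →
  (∀ e ∈ E, w' e ≠ ∞) → ∀ f : Finset (ℕ × ℕ) → ℝ≥0∞, (∀ S T, S ⊆ T → f S ≤ f T) →
  (∑ S ∈ E.powerset, (∏ e ∈ S, w e) * f S) * ∏ e ∈ E, (1 + w' e) ≤
    (∑ S ∈ E.powerset, (∏ e ∈ S, w' e) * f S) * ∏ e ∈ E, (1 + w e)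

/-- marginals -/
def MARG_T : Prop := ∀ (ε : ℕ → ℝ≥0∞), (∀ k, ε k ≠ ∞) → ∀ (i N : ℕ), i ≤ N →
  ∀ f : Finset (ℕ × ℕ) → ℝ≥0∞, EE ε N (fun S => f (S ∩ arcs i)) = EE ε i f

/-- splitting at the vertex `i` -/
def SPL_T : Prop := ∀ (w : ℕ × ℕ → ℝ≥0∞) (m i : ℕ), i ≤ m →
  ∏ e ∈ arcs m, (1 + w e) = (∏ e ∈ arcs i, (1 + w e)) *
    (∏ e ∈ arcs (m - i), (1 + w (e.1 + i, e.2 + i))) *
    ∏ e ∈ (arcs m).filter (fun e => e.1 < i ∧ i < e.2), (1 + w e)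

def CRS_T : Prop := ∀ (ε : ℕ → ℝ≥0∞), Small ε → ∀ (m i : ℕ),
  ∏ e ∈ (arcs m).filter (fun e => e.1 < i ∧ i < e.2), (1 + lw ε e) ≤ 8 / 7

/-- the sets of arcs whose first uncrossed vertex is `l` -/
def RENT_T : Prop := ∀ (w : ℕ × ℕ → ℝ≥0∞) (n l : ℕ), 1 ≤ l → l ≤ n →
  wsum w n (fun S => ind (Irr l S ∧ ∀ e ∈ S, ¬ (e.1 < l ∧ l < e.2))) =
    kk w l * ∏ e ∈ arcs (n - l), (1 + w (e.1 + l, e.2 + l))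

/-- renewal identity -/
def REN_T : Prop := ∀ (w : ℕ × ℕ → ℝ≥0∞) (n : ℕ), 1 ≤ n →
  ∏ e ∈ arcs n, (1 + w e) =
    ∑ l ∈ Finset.Icc 1 n, kk w l * ∏ e ∈ arcs (n - l), (1 + w (e.1 + l, e.2 + l))

open Classical in
/-- a run of indices, each determined by the arcs starting before it -/
def RUN_T : Prop := ∀ (ε : ℕ → ℝ≥0∞), Small ε → ∀ (N : ℕ) (D : ℕ → Finset (ℕ × ℕ) → Prop),
  (∀ a S, D a S ↔ D a (S.filter fun e => e.1 < a)) →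
  (∀ S ⊆ arcs N, ((Finset.range (N + 1)).filter fun a => D a S).card ≤
    1 + ∑ a ∈ (Finset.range (N + 1)).filter (fun a => D a S),
      ∑ e ∈ S.filter (fun e => e.1 = a), (e.2 - e.1)) →
  ∑ a ∈ Finset.range (N + 1), EE ε N (fun S => ind (D a S)) ≤ 8 / 7

def RUNA_T : Prop := ∀ (N r : ℕ) (S : Finset (ℕ × ℕ)), S ⊆ arcs N →
  ((Finset.range (N + 1)).filter fun a => free a S = r).card ≤
    1 + ∑ a ∈ (Finset.range (N + 1)).filter (fun a => free a S = r),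
      ∑ e ∈ S.filter (fun e => e.1 = a), (e.2 - e.1)

open Classical in
def RUNB_T : Prop := ∀ (N : ℕ) (S : Finset (ℕ × ℕ)), S ⊆ arcs N →
  ((Finset.range (N + 1)).filter fun a => a < N ∧ Irr (a + 1) S).card ≤
    1 + ∑ a ∈ (Finset.range (N + 1)).filter (fun a => a < N ∧ Irr (a + 1) S),
      ∑ e ∈ S.filter (fun e => e.1 = a), (e.2 - e.1)

/-- renewal estimate for the number of free steps -/
def FSUM_T : Prop := ∀ (ε : ℕ → ℝ≥0∞), Small ε → ∀ (N : ℕ) (Ψ : ℕ → ℝ≥0∞), Antitone Ψ →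
  ∑ i ∈ Finset.range (N + 1), EE ε i (fun S => Ψ (free i S)) ≤ 2 * ∑' r : ℕ, Ψ r

/-- irreducible sets of arcs are rare -/
def IRS_T : Prop := ∀ (ε : ℕ → ℝ≥0∞), Small ε → ∀ N : ℕ,
  ∑ l ∈ Finset.Icc 2 N, (l : ℝ≥0∞) * EE ε l (fun S => ind (Irr l S)) ≤ 1 / 2

/-! ## The core estimates -/

def SUPA_T : Prop := ∀ (d : ℕ) (q : Measure (Fin d → ℤ)) [IsProbabilityMeasure q]
  (η : ℕ → (ℕ → Fin d → ℤ) → ℝ≥0∞) (ε : ℕ → ℝ≥0∞), Loc η → (∀ k z, η k z ≤ ε k) →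
  (∀ k, ε k ≠ ∞) →
  (∀ n, Measurable (V η n)) ∧ (∀ n, 1 ≤ A q η n) ∧ (∀ n, A q η n ≠ ∞) ∧
    (∀ i j, A q η i * A q η j ≤ A q η (i + j))

/-- first estimate -/
def M1_T : Prop := ∀ (d : ℕ) (q : Measure (Fin d → ℤ)) [IsProbabilityMeasure q]
  (η : ℕ → (ℕ → Fin d → ℤ) → ℝ≥0∞) (ε : ℕ → ℝ≥0∞), Loc η → (∀ k z, η k z ≤ ε k) →
  (∀ k, ε k ≠ ∞) → ∀ (n : ℕ) (ψ : (Fin d → ℤ) → ℝ≥0∞) (Ψ : ℕ → ℝ≥0∞), Antitone Ψ →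
  (∀ m x, ∫⁻ a, ψ (x + pos a m) ∂(iid q) ≤ Ψ m) →
  ∫⁻ a, V η n a * ψ (pos a n) ∂(iid q) ≤ A q η n * EE ε n (fun S => Ψ (free n S))

/-- the recursions for the second moment of the position -/
def RENB_T : Prop := ∀ (d : ℕ) (q : Measure (Fin d → ℤ)) [IsProbabilityMeasure q],
  q.map (fun x => -x) = q → ∀ (η : ℕ → (ℕ → Fin d → ℤ) → ℝ≥0∞), Loc η → SymW η →
  ∀ (i : Fin d) (n : ℕ), 1 ≤ n →
  A q η n = ∑ l ∈ Finset.Icc 1 n, (∫⁻ a, kk (aw η a) l ∂(iid q)) * A q η (n - l) ∧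
  ∫⁻ a, V η n a * sq (pos a n i) ∂(iid q) = ∑ l ∈ Finset.Icc 1 n,
    ((∫⁻ a, kk (aw η a) l * sq (pos a l i) ∂(iid q)) * A q η (n - l) +
      (∫⁻ a, kk (aw η a) l ∂(iid q)) * ∫⁻ a, V η (n - l) a * sq (pos a (n - l) i) ∂(iid q))

/-- solving the recursion -/
def SOLVE_T : Prop := ∀ (A B k k2 π : ℕ → ℝ≥0∞) (s : ℝ≥0∞), A 0 = 1 → B 0 = 0 →
  (∀ n, 1 ≤ A n) → (∀ n, A n ≠ ∞) → (∀ n, B n ≠ ∞) → (∀ i j, A i * A j ≤ A (i + j)) →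
  (∀ n, 1 ≤ n → A n = ∑ l ∈ Finset.Icc 1 n, k l * A (n - l)) →
  (∀ n, 1 ≤ n → B n = ∑ l ∈ Finset.Icc 1 n, (k2 l * A (n - l) + k l * B (n - l))) →
  (∀ l, k2 l ≤ π l * B l) → k2 1 ≤ s →
  (∀ N : ℕ, ∑ l ∈ Finset.Icc 2 N, (l : ℝ≥0∞) * π l ≤ 1 / 2) →
  ∀ n : ℕ, B n ≤ 2 * n * s * A n

/-- second moment of the position under the weight `V` -/
def M2_T : Prop := ∀ (d : ℕ) (q : Measure (Fin d → ℤ)) [IsProbabilityMeasure q],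
  q.map (fun x => -x) = q → ∀ (η : ℕ → (ℕ → Fin d → ℤ) → ℝ≥0∞) (ε : ℕ → ℝ≥0∞), Loc η →
  SymW η → (∀ k z, η k z ≤ ε k) → Small ε → ∀ (i : Fin d) (n : ℕ),
  ∫⁻ a, V η n a * sq (pos a n i) ∂(iid q) ≤ 3 * n * (∫⁻ x, sq (x i) ∂q) * A q η n

/-- Khas'minskii's lemma -/
def KH_T : Prop := ∀ (d : ℕ) (q : Measure (Fin d → ℤ)) [IsProbabilityMeasure q]
  (η : ℕ → (ℕ → Fin d → ℤ) → ℝ≥0∞) (ε : ℕ → ℝ≥0∞), Loc η → (∀ k z, η k z ≤ ε k) → Small ε →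
  ∀ (C : (ℕ → (Fin d → ℤ) → ℝ≥0∞) → Prop) (M : ℝ≥0∞), M ≠ ∞ →
  (∀ v, C v → ∀ i x, v i x ≤ M) →
  (∀ v, C v → ∀ (i0 : ℕ) (x : Fin d → ℤ), C (fun i y => v (i0 + i) (x + y))) →
  (∀ v, C v → ∀ m : ℕ, ∑ i ∈ Finset.Icc 1 m,
    (∫⁻ a, V η i a * v i (pos a i) ∂(iid q)) / A q η i ≤ 7 / 16) →
  ∀ v, C v → ∀ m : ℕ,
    ∫⁻ a, V η m a * ∏ i ∈ Finset.Icc 1 m, (1 + v i (pos a i)) ∂(iid q) ≤ 2 * A q η m

/-- hypotheses on the kernels -/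
structure Ker (d : ℕ) (q : Measure (Fin d → ℤ)) (p : ℕ → (Fin d → ℤ) → ℝ≥0∞)
    (g : ℕ → ℝ≥0∞) (c : ℝ≥0∞) (η : ℕ → (ℕ → Fin d → ℤ) → ℝ≥0∞) : Prop where
  anti : Antitone g
  bound : ∀ k m x, ∫⁻ a, p k (x + pos a m) ∂(iid q) ≤ g (k + m)
  small : c * ∑' n : ℕ, ((n : ℝ≥0∞) + 1) * g n ≤ 1 / 32
  loc : Loc η
  le : ∀ k z, 1 + η k z ≤ Ex (c * p k (z k))

def EPS_T : Prop := ∀ (d : ℕ) (q : Measure (Fin d → ℤ)) [IsProbabilityMeasure q]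
  (p : ℕ → (Fin d → ℤ) → ℝ≥0∞) (g : ℕ → ℝ≥0∞) (c : ℝ≥0∞) (η : ℕ → (ℕ → Fin d → ℤ) → ℝ≥0∞),
  Ker d q p g c η →
  Small (fun k => Ex (c * g k) - 1) ∧ ∀ k z, η k z ≤ Ex (c * g k) - 1

/-- the interaction with a fixed path -/
noncomputable def vf {d : ℕ} (p : ℕ → (Fin d → ℤ) → ℝ≥0∞) (c : ℝ≥0∞) (J : Finset ℤ)
    (z : ℤ → Fin d → ℤ) (i : ℕ) (x : Fin d → ℤ) : ℝ≥0∞ :=
  Ex (c * ∑ j ∈ J, p ((i : ℤ) - j).natAbs (x - z j)) - 1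

def TH_T : Prop := ∀ (d : ℕ) (q : Measure (Fin d → ℤ)) [IsProbabilityMeasure q]
  (p : ℕ → (Fin d → ℤ) → ℝ≥0∞) (g : ℕ → ℝ≥0∞) (c : ℝ≥0∞) (η : ℕ → (ℕ → Fin d → ℤ) → ℝ≥0∞),
  Ker d q p g c η → ∀ (J : Finset ℤ) (z : ℤ → Fin d → ℤ),
  (∀ i x, vf p c J z i x ≤ 1) ∧
  ∀ m : ℕ, ∑ i ∈ Finset.Icc 1 m,
    (∫⁻ a, V η i a * vf p c J z i (pos a i) ∂(iid q)) / A q η i ≤ 7 / 16

/-- the interaction with a fixed path has bounded exponential moment -/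
def M3_T : Prop := ∀ (d : ℕ) (q : Measure (Fin d → ℤ)) [IsProbabilityMeasure q]
  (p : ℕ → (Fin d → ℤ) → ℝ≥0∞) (g : ℕ → ℝ≥0∞) (c : ℝ≥0∞) (η : ℕ → (ℕ → Fin d → ℤ) → ℝ≥0∞),
  Ker d q p g c η → ∀ (n : ℕ) (z : ℕ → Fin d → ℤ),
  ∫⁻ a, V η n a * Ex (c * ∑ i ∈ Finset.range (n + 1), ∑ j ∈ Finset.range (n + 1),
    p ((i - j) + (j - i)) (pos a i - z j)) ∂(iid q) ≤ 4 * A q η n

/-! ## Traps on a grid -/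

/-- transition kernel of the trap walk -/
noncomputable def pk {d : ℕ} (r : Measure (Fin d → ℤ)) (k : ℕ) (x : Fin d → ℤ) : ℝ≥0∞ :=
  iid r {w | pos w k = x}

/-- weight of two consecutive hits -/
noncomputable def qf {d : ℕ} (e : ℝ≥0∞) (r : Measure (Fin d → ℤ)) (k : ℕ) (z : ℕ → Fin d → ℤ) :
    ℝ≥0∞ :=
  (1 - e) ^ 2 * ∫⁻ w, (if pos w k = z k then 1 else 0) *
    ∏ i ∈ Finset.Ioo 0 k, (if pos w i = z i then e else 1) ∂(iid r)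

noncomputable def Cn {d : ℕ} (e : ℝ≥0∞) (r : Measure (Fin d → ℤ)) (n : ℕ) (x : ℕ → Fin d → ℤ) :
    ℝ≥0∞ :=
  ∑' y : Fin d → ℤ,
    (1 - ∫⁻ w, ∏ i ∈ Finset.Icc 1 n, (if y + pos w i = x i then e else 1) ∂(iid r))

noncomputable def C2 {d : ℕ} (e : ℝ≥0∞) (r : Measure (Fin d → ℤ)) (n : ℕ)
    (x x' : ℕ → Fin d → ℤ) : ℝ≥0∞ :=
  ∑' y : Fin d → ℤ,
    (1 - ∫⁻ w, ∏ i ∈ Finset.Icc 1 n, ((if y + pos w i = x i then e else 1) *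
      (if y + pos w i = x' i then e else 1)) ∂(iid r))

/-- the arc weights of the walk among traps -/
noncomputable def etaT {d : ℕ} (ν e : ℝ≥0∞) (r : Measure (Fin d → ℤ)) (k : ℕ)
    (z : ℕ → Fin d → ℤ) : ℝ≥0∞ :=
  Ex (ν * qf e r k z) - 1

def QF_T : Prop := ∀ (d : ℕ) (r : Measure (Fin d → ℤ)) [IsProbabilityMeasure r] (e : ℝ≥0∞),
  e ≤ 1 → Loc (qf e r) ∧ (r.map (fun x => -x) = r → SymW (qf e r)) ∧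
    ∀ k z, qf e r k z ≤ (1 - e) ^ 2 * pk r k (z k)

/-- the number of killing traps, in terms of pairs of consecutive hits -/
def C1_T : Prop := ∀ (d : ℕ) (r : Measure (Fin d → ℤ)) [IsProbabilityMeasure r] (e : ℝ≥0∞),
  e ≤ 1 → ∀ (m : ℕ) (x : ℕ → Fin d → ℤ),
  Cn e r (m + 1) x + ∑ s ∈ arcs m, qf e r (s.2 - s.1) (fun i => x (1 + s.1 + i) - x (1 + s.1)) =
    (m + 1) * (1 - e)

def C2_T : Prop := ∀ (d : ℕ) (r : Measure (Fin d → ℤ)) [IsProbabilityMeasure r],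
  r.map (fun x => -x) = r → ∀ (e : ℝ≥0∞),
  e ≤ 1 → ∀ (n : ℕ) (x x' : ℕ → Fin d → ℤ),
  Cn e r n x + Cn e r n x' ≤ C2 e r n x x' + (1 - e) ^ 2 *
    ∑ i ∈ Finset.Icc 1 n, ∑ j ∈ Finset.Icc 1 n, pk r ((i - j) + (j - i)) (x i - x' j)

/-- second moments on the grid, discrete form -/
def CORE_T : Prop := ∀ (d : ℕ) (q r : Measure (Fin d → ℤ)) [IsProbabilityMeasure q]
  [IsProbabilityMeasure r], q.map (fun x => -x) = q → r.map (fun x => -x) = r →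
  ∀ (e : ℝ≥0∞), e ≤ 1 → ∀ (ν : ℝ≥0∞), ν ≠ ∞ → ∀ (g : ℕ → ℝ≥0∞), Antitone g →
  (∀ k m x, ∫⁻ a, pk r k (x + pos a m) ∂(iid q) ≤ g (k + m)) →
  ν * (1 - e) ^ 2 * ∑' n : ℕ, ((n : ℝ≥0∞) + 1) * g n ≤ 1 / 32 →
  ∀ n : ℕ, 1 ≤ n →
  ENNReal.ofReal (Real.exp (-(n * (ν * (1 - e)).toReal))) ≤
      ∫⁻ a, En (ν * Cn e r n (pos a)) ∂(iid q) ∧
  ∫⁻ a, ∫⁻ a', En (ν * C2 e r n (pos a) (pos a')) ∂(iid q) ∂(iid q) ≤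
    4 * (∫⁻ a, En (ν * Cn e r n (pos a)) ∂(iid q)) ^ 2 ∧
  ∀ i : Fin d, ∫⁻ a, En (ν * Cn e r n (pos a)) * sq (pos a n i) ∂(iid q) ≤
    6 * n * (∫⁻ x, sq (x i) ∂q) * ∫⁻ a, En (ν * Cn e r n (pos a)) ∂(iid q)

/-! ## The trap system -/

open Classical in
/-- coincidences between the traps and the grid path `x` at the times `h, 2h, ..., mh` -/
noncomputable def hitsg {d : ℕ} {Ω : Type u} (N : (Fin d → ℤ) → Ω → ℕ)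
    (Y : (Fin d → ℤ) → ℕ → ℝ≥0 → Ω → Fin d → ℤ) (h : ℝ≥0) (m : ℕ) (x : ℕ → Fin d → ℤ) (ω : Ω) :
    ℝ≥0∞ :=
  ∑' y : Fin d → ℤ, ∑ j ∈ Finset.range (N y ω),
    (((Finset.Icc 1 m).filter fun k : ℕ => y + Y y j ((k : ℝ≥0) * h) ω = x k).card : ℝ≥0∞)

/-- the law of a walk on a grid -/
def GRIDW_T : Prop := ∀ (d : ℕ) (Ω : Type u) [MeasurableSpace Ω] (P : Measure Ω)
  [IsProbabilityMeasure P] (κ : ℝ≥0) (X : ℝ≥0 → Ω → Fin d → ℤ), IsWalk P κ X →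
  ∀ (h : ℝ≥0) (m : ℕ) (F : (ℕ → Fin d → ℤ) → ℝ≥0∞),
  (∀ x x' : ℕ → Fin d → ℤ, (∀ k ≤ m, x k = x' k) → F x = F x') →
  ∫⁻ ω, F (fun k => X (k * h) ω) ∂P = ∫⁻ a, F (pos a) ∂(iid (stepLaw d κ h))

/-- Laplace functional of the traps on a grid -/
def LAP_T : Prop := ∀ (d : ℕ) (Ω : Type u) [MeasurableSpace Ω] (P : Measure Ω)
  [IsProbabilityMeasure P] (ρ ν : ℝ≥0) (N : (Fin d → ℤ) → Ω → ℕ)
  (Y : (Fin d → ℤ) → ℕ → ℝ≥0 → Ω → Fin d → ℤ), TrapSystem P ρ ν N Y →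
  ∀ (h : ℝ≥0) (m : ℕ) (φ : (Fin d → ℤ) → (ℕ → Fin d → ℤ) → ℝ≥0∞),
  (∀ y, ∀ w w' : ℕ → Fin d → ℤ, (∀ k ≤ m, w k = w' k) → φ y w = φ y w') →
  ∫⁻ ω, En (∑' y : Fin d → ℤ, ∑ j ∈ Finset.range (N y ω), φ y (fun k => Y y j (k * h) ω)) ∂P =
    En (ν * ∑' y : Fin d → ℤ, (1 - ∫⁻ w, En (φ y (pos w)) ∂(iid (stepLaw d ρ h))))

/-- consequences for one and for two paths -/
def LAPC_T : Prop := ∀ (d : ℕ) (Ω : Type u) [MeasurableSpace Ω] (P : Measure Ω)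
  [IsProbabilityMeasure P] (ρ ν : ℝ≥0) (N : (Fin d → ℤ) → Ω → ℕ)
  (Y : (Fin d → ℤ) → ℕ → ℝ≥0 → Ω → Fin d → ℤ), TrapSystem P ρ ν N Y →
  ∀ (θ : ℝ≥0) (h : ℝ≥0) (m : ℕ) (x x' : ℕ → Fin d → ℤ),
  ∫⁻ ω, En (θ * hitsg N Y h m x ω) ∂P = En (ν * Cn (En θ) (stepLaw d ρ h) m x) ∧
  ∫⁻ ω, En (θ * hitsg N Y h m x ω) * En (θ * hitsg N Y h m x' ω) ∂P =
    En (ν * C2 (En θ) (stepLaw d ρ h) m x x')

/-- the quenched weight on a grid -/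
noncomputable def qg {d : ℕ} {Ω : Type u} {Ω' : Type v} [MeasurableSpace Ω'] (P' : Measure Ω')
    (θ : ℝ≥0) (X : ℝ≥0 → Ω' → Fin d → ℤ) (N : (Fin d → ℤ) → Ω → ℕ)
    (Y : (Fin d → ℤ) → ℕ → ℝ≥0 → Ω → Fin d → ℤ) (h : ℝ≥0) (m : ℕ)
    (Φ : (Fin d → ℤ) → ℝ≥0∞) (ω : Ω) : ℝ≥0∞ :=
  ∫⁻ ω', Φ (X (m * h) ω') * En (θ * hitsg N Y h m (fun k => X (k * h) ω') ω) ∂P'

/-- moments of the quenched weight on a grid -/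
def GRD_T : Prop := ∀ (d : ℕ) (Ω : Type u) [MeasurableSpace Ω] (P : Measure Ω)
  [IsProbabilityMeasure P] (Ω' : Type v) [MeasurableSpace Ω'] (P' : Measure Ω')
  [IsProbabilityMeasure P'] (κ ρ ν : ℝ≥0) (X : ℝ≥0 → Ω' → Fin d → ℤ)
  (N : (Fin d → ℤ) → Ω → ℕ) (Y : (Fin d → ℤ) → ℕ → ℝ≥0 → Ω → Fin d → ℤ),
  IsWalk P' κ X → TrapSystem P ρ ν N Y → ∀ (θ h : ℝ≥0) (m : ℕ) (Φ : (Fin d → ℤ) → ℝ≥0∞),
  Measurable (qg P' θ X N Y h m Φ) ∧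
  ∫⁻ ω, qg P' θ X N Y h m Φ ω ∂P =
    ∫⁻ a, Φ (pos a m) * En (ν * Cn (En θ) (stepLaw d ρ h) m (pos a)) ∂(iid (stepLaw d κ h)) ∧
  ∫⁻ ω, (qg P' θ X N Y h m (fun _ => 1) ω) ^ 2 ∂P =
    ∫⁻ a, ∫⁻ a', En (ν * C2 (En θ) (stepLaw d ρ h) m (pos a) (pos a'))
      ∂(iid (stepLaw d κ h)) ∂(iid (stepLaw d κ h))

/-- kernel bounds -/
def KERB_T : Prop := ∀ (d : ℕ), 5 ≤ d → ∀ (κ : ℝ≥0), 0 < κ → ∃ C : ℝ, 0 < C ∧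
  ∀ (s : ℝ≥0) (x : Fin d → ℤ),
    stepLaw d κ s {x} ≤ ENNReal.ofReal (C * (1 + (s : ℝ)) ^ (-(5 / 2) : ℝ))

def KERG_T : Prop := ∀ (d : ℕ), 5 ≤ d → ∀ (κ ρ : ℝ≥0), 0 < κ → 0 < ρ → ∃ C : ℝ, 0 < C ∧
  ∀ (h : ℝ≥0) (k m : ℕ) (x : Fin d → ℤ),
    ∫⁻ a, pk (stepLaw d ρ h) k (x + pos a m) ∂(iid (stepLaw d κ h)) ≤
      ENNReal.ofReal (C * (1 + ((k + m : ℕ) : ℝ) * h) ^ (-(5 / 2) : ℝ))

def STEP_T : Prop := ∀ (d : ℕ) (κ h : ℝ≥0), IsProbabilityMeasure (stepLaw d κ h) ∧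
  (stepLaw d κ h).map (fun x => -x) = stepLaw d κ h ∧
  (1 ≤ d → ∀ i : Fin d, ∫⁻ x, sq (x i) ∂(stepLaw d κ h) = ENNReal.ofReal ((κ : ℝ) * h / d)) ∧
  ∀ k : ℕ, (iid (stepLaw d κ h)).map (fun a => pos a k) = stepLaw d κ (k * h)

def NUM_T : Prop := ∀ (h : ℝ), 0 < h → h ≤ 1 →
  ∑' n : ℕ, ((n : ℝ≥0∞) + 1) * ENNReal.ofReal (h ^ 2 * (1 + n * h) ^ (-(5 / 2) : ℝ)) ≤ 4

/-- from the grid to continuous time -/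
def LIM_T : Prop := ∀ (d : ℕ) (Ω : Type u) [MeasurableSpace Ω] (P : Measure Ω)
  [IsProbabilityMeasure P] (Ω' : Type v) [MeasurableSpace Ω'] (P' : Measure Ω')
  [IsProbabilityMeasure P'] (κ ρ ν : ℝ≥0) (X : ℝ≥0 → Ω' → Fin d → ℤ)
  (N : (Fin d → ℤ) → Ω → ℕ) (Y : (Fin d → ℤ) → ℕ → ℝ≥0 → Ω → Fin d → ℤ),
  IsWalk P' κ X → TrapSystem P ρ ν N Y → ∀ (t : ℝ≥0), 0 < t →
  AEMeasurable (fun p : Ω' × Ω => pathExposure N Y t (fun s => X s p.1) p.2) (P'.prod P) ∧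
  Tendsto (fun n : ℕ => ∫⁻ p : Ω' × Ω,
    ((pathExposure N Y t (fun s => X s p.1) p.2 -
        ((t / n : ℝ≥0) : ℝ≥0∞) * hitsg N Y (t / n) n (fun k => X (k * (t / n)) p.1) p.2) +
      (((t / n : ℝ≥0) : ℝ≥0∞) * hitsg N Y (t / n) n (fun k => X (k * (t / n)) p.1) p.2 -
        pathExposure N Y t (fun s => X s p.1) p.2)) ∂(P'.prod P)) atTop (𝓝 0)

/-- convergence of the quenched weights -/
def LIMQ_T : Prop := ∀ (d : ℕ) (Ω : Type u) [MeasurableSpace Ω] (P : Measure Ω)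
  [IsProbabilityMeasure P] (Ω' : Type v) [MeasurableSpace Ω'] (P' : Measure Ω')
  [IsProbabilityMeasure P'] (κ ρ ν γ : ℝ≥0) (X : ℝ≥0 → Ω' → Fin d → ℤ)
  (N : (Fin d → ℤ) → Ω → ℕ) (Y : (Fin d → ℤ) → ℕ → ℝ≥0 → Ω → Fin d → ℤ),
  IsWalk P' κ X → TrapSystem P ρ ν N Y → ∀ (t : ℝ≥0), 0 < t → ∀ (B : Set (Fin d → ℤ)),
  AEMeasurable (quenchedWeight γ P' X N Y t {ω' | X t ω' ∈ B}) P ∧
  Tendsto (fun n : ℕ => ∫⁻ ω,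
    ((quenchedWeight γ P' X N Y t {ω' | X t ω' ∈ B} ω -
        qg P' (γ * (t / n)) X N Y (t / n) n (B.indicator fun _ => 1) ω) +
      (qg P' (γ * (t / n)) X N Y (t / n) n (B.indicator fun _ => 1) ω -
        quenchedWeight γ P' X N Y t {ω' | X t ω' ∈ B} ω)) ∂P) atTop (𝓝 0)

/-- moments of the quenched weights in continuous time -/
def MOM_T : Prop := ∀ (d : ℕ), 5 ≤ d → ∀ (κ ρ ν : ℝ≥0), 0 < κ → 0 < ρ → 0 < ν →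
  ∃ γ₀ : ℝ≥0, 0 < γ₀ ∧ ∀ γ : ℝ≥0, 0 < γ → γ ≤ γ₀ →
  ∀ (Ω : Type u) [MeasurableSpace Ω] (P : Measure Ω)
  [IsProbabilityMeasure P] (Ω' : Type v) [MeasurableSpace Ω'] (P' : Measure Ω')
  [IsProbabilityMeasure P'] (X : ℝ≥0 → Ω' → Fin d → ℤ)
  (N : (Fin d → ℤ) → Ω → ℕ) (Y : (Fin d → ℤ) → ℕ → ℝ≥0 → Ω → Fin d → ℤ),
  IsWalk P' κ X → TrapSystem P ρ ν N Y → ∀ (t : ℝ≥0), 1 ≤ t →
  ENNReal.ofReal (Real.exp (-(ν * γ * t))) ≤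
    ∫⁻ ω, quenchedWeight γ P' X N Y t Set.univ ω ∂P ∧
  ∫⁻ ω, (quenchedWeight γ P' X N Y t Set.univ ω) ^ 2 ∂P ≤
    4 * (∫⁻ ω, quenchedWeight γ P' X N Y t Set.univ ω ∂P) ^ 2 ∧
  ∀ M : ℝ, 0 < M → ∫⁻ ω, quenchedWeight γ P' X N Y t (diffusiveBall X M t)ᶜ ω ∂P ≤
    ENNReal.ofReal (6 * κ / M ^ 2) * ∫⁻ ω, quenchedWeight γ P' X N Y t Set.univ ω ∂P

/-- Paley-Zygmund -/
def PZ_T : Prop := ∀ (Ω : Type u) [MeasurableSpace Ω] (P : Measure Ω) [IsProbabilityMeasure P]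
  (Z W W' : Ω → ℝ≥0∞), AEMeasurable Z P → AEMeasurable W P → (∀ ω, Z ω ≤ 1) →
  (∀ ω, Z ω ≤ W ω + W' ω) → (∀ ω, W ω ≤ Z ω) → 0 < ∫⁻ ω, Z ω ∂P →
  ∫⁻ ω, (Z ω) ^ 2 ∂P ≤ 4 * (∫⁻ ω, Z ω ∂P) ^ 2 →
  ∫⁻ ω, W' ω ∂P ≤ 1 / 2 * ∫⁻ ω, Z ω ∂P →
  1 / 128 ≤ P {ω | 1 / 512 ≤ W ω / Z ω}

/-- reverse Fatou for events -/
def FAT_T : Prop := ∀ (Ω : Type u) [MeasurableSpace Ω] (P : Measure Ω) [IsProbabilityMeasure P]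
  (E : ℕ → Set Ω), (∀ n, NullMeasurableSet (E n) P) → ∀ δ : ℝ≥0∞, (∀ᶠ n in atTop, δ ≤ P (E n)) →
  δ ≤ P {ω | ∃ᶠ n in atTop, ω ∈ E n}

end Pool.Agent.W823.QT
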