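import Pool.Agent.W823.QT.Stm

/-!
# MP_26aa9e_pr: from the moment bounds to the failure of super-diffusivity
-/

set_option autoImplicit false
set_option linter.unusedSectionVars false

namespace Pool.Agent.W823.QT

open MeasureTheory ProbabilityTheory Filter Topology Pool.Agent.W845.Traps
open scoped ENNReal NNReal

universe u v

section

variable {d : ℕ} {Ω : Type u} {Ω' : Type v} [MeasurableSpace Ω']
  {γ : ℝ≥0} {P' : Measure Ω'} {X : ℝ≥0 → Ω' → Fin d → ℤ} {N : (Fin d → ℤ) → Ω → ℕ}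
  {Y : (Fin d → ℤ) → ℕ → ℝ≥0 → Ω → Fin d → ℤ} {t : ℝ≥0}

theorem exp_neg_le_one (a : ℝ≥0∞) : EReal.exp (-(a : EReal)) ≤ 1 := by
  rw [← EReal.exp_zero]
  apply EReal.exp_monotone
  rw [EReal.neg_le]
  simpa using EReal.coe_ennreal_nonneg a

theorem qw_le_one [IsProbabilityMeasure P'] (E : Set Ω') (ω : Ω) :
    quenchedWeight γ P' X N Y t E ω ≤ 1 := by
  unfold quenchedWeight
  calc _ ≤ ∫⁻ _ in E, 1 ∂P' := lintegral_mono fun ω' => exp_neg_le_one _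
    _ = P' E := by simp
    _ ≤ 1 := prob_le_one

theorem qw_mono (E : Set Ω') (ω : Ω) :
    quenchedWeight γ P' X N Y t E ω ≤ quenchedWeight γ P' X N Y t Set.univ ω := by
  unfold quenchedWeight
  exact lintegral_mono_set (Set.subset_univ _)

theorem qw_add (E : Set Ω') (hE : MeasurableSet E) (ω : Ω) :
    quenchedWeight γ P' X N Y t Set.univ ω ≤
      quenchedWeight γ P' X N Y t E ω + quenchedWeight γ P' X N Y t Eᶜ ω := by
  unfold quenchedWeight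
  rw [lintegral_add_compl _ hE, setLIntegral_univ]

theorem ball_eq (X : ℝ≥0 → Ω' → Fin d → ℤ) (M : ℝ) (t : ℝ≥0) :
    diffusiveBall X M t = {ω' | X t ω' ∈ {x : Fin d → ℤ | √(∑ i, ((x i : ℤ) : ℝ) ^ 2) ≤
      M * √(t : ℝ)}} := rfl

end

theorem final (hMOM : MOM_T.{u, v}) (hLIMQ : LIMQ_T.{u, v}) (hPZ : PZ_T.{u}) (hFAT : FAT_T.{u})
    {d : ℕ} (hd : 5 ≤ d) {κ ρ ν : ℝ≥0} (hκ : 0 < κ) (hρ : 0 < ρ) (hν : 0 < ν) :
    ∃ γ₀ : ℝ≥0, 0 < γ₀ ∧ ∀ γ : ℝ≥0, 0 < γ → γ ≤ γ₀ →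
      ∀ (Ω : Type u) [MeasurableSpace Ω] (P : Measure Ω) [IsProbabilityMeasure P]
        (Ω' : Type v) [MeasurableSpace Ω'] (P' : Measure Ω') [IsProbabilityMeasure P']
        (X : ℝ≥0 → Ω' → Fin d → ℤ) (N : (Fin d → ℤ) → Ω → ℕ)
        (Y : (Fin d → ℤ) → ℕ → ℝ≥0 → Ω → Fin d → ℤ),
        IsWalk P' κ X → TrapSystem P ρ ν N Y →
        (∀ M : ℝ, 0 < M → 12 * (κ : ℝ) ≤ M ^ 2 →
          (∀ t : ℝ≥0, 1 ≤ t → 1 / 128 ≤
            P {ω | 1 / 512 ≤ quenchedProb γ P' X N Y t (diffusiveBall X M t) ω}) ∧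
          1 / 128 ≤ P {ω | ∃ᶠ t : ℝ≥0 in atTop,
            1 / 512 ≤ quenchedProb γ P' X N Y t (diffusiveBall X M t) ω}) ∧
        ¬ ∀ᵐ ω ∂P, SuperDiffusive γ P' X N Y ω := by
  obtain ⟨γ₀, h0, hm⟩ := hMOM d hd κ ρ ν hκ hρ hν
  refine ⟨γ₀, h0, fun γ hγ hγ₀ Ω _ P _ Ω' _ P' _ X N Y hX hT => ?_⟩
  have hmeas : ∀ t : ℝ≥0, 0 < t → ∀ B : Set (Fin d → ℤ),
      AEMeasurable (quenchedWeight γ P' X N Y t {ω' | X t ω' ∈ B}) P := fun t ht B =>
    (hLIMQ d Ω P Ω' P' κ ρ ν γ X N Y hX hT t ht B).1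
  have hmu : ∀ t : ℝ≥0, 0 < t → AEMeasurable (quenchedWeight γ P' X N Y t Set.univ) P := by
    intro t ht
    have := hmeas t ht Set.univ
    simpa using this
  have hmb : ∀ (M : ℝ) (t : ℝ≥0), 0 < t →
      AEMeasurable (quenchedWeight γ P' X N Y t (diffusiveBall X M t)) P := by
    intro M t ht
    rw [ball_eq]
    exact hmeas t ht _
  have key : ∀ M : ℝ, 0 < M → 12 * (κ : ℝ) ≤ M ^ 2 →
      (∀ t : ℝ≥0, 1 ≤ t → 1 / 128 ≤
        P {ω | 1 / 512 ≤ quenchedProb γ P' X N Y t (diffusiveBall X M t) ω}) ∧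
      1 / 128 ≤ P {ω | ∃ᶠ t : ℝ≥0 in atTop,
        1 / 512 ≤ quenchedProb γ P' X N Y t (diffusiveBall X M t) ω} := by
    intro M hM hMκ
    have hA : ∀ t : ℝ≥0, 1 ≤ t → 1 / 128 ≤
        P {ω | 1 / 512 ≤ quenchedProb γ P' X N Y t (diffusiveBall X M t) ω} := by
      intro t ht
      have ht0 : 0 < t := lt_of_lt_of_le one_pos ht
      obtain ⟨m1, m2, m3⟩ := hm γ hγ hγ₀ Ω P Ω' P' X N Y hX hT t ht
      have hball : MeasurableSet (diffusiveBall X M t) := by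
        rw [ball_eq]
        exact (hX.meas t) (MeasurableSet.of_discrete)
      have hpos : 0 < ∫⁻ ω, quenchedWeight γ P' X N Y t Set.univ ω ∂P :=
        lt_of_lt_of_le (by rw [ENNReal.ofReal_pos]; exact Real.exp_pos _) m1
      refine hPZ Ω P (quenchedWeight γ P' X N Y t Set.univ)
        (quenchedWeight γ P' X N Y t (diffusiveBall X M t))
        (quenchedWeight γ P' X N Y t (diffusiveBall X M t)ᶜ) (hmu t ht0) (hmb M t ht0)
        (fun ω => qw_le_one _ ω) (fun ω => qw_add _ hball ω) (fun ω => qw_mono _ ω) hpos m2 ?_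
      refine (m3 M hM).trans ?_
      gcongr
      have h6 : 6 * (κ : ℝ) / M ^ 2 ≤ 1 / 2 := by
        rw [div_le_iff₀ (by positivity)]
        linarith
      calc ENNReal.ofReal (6 * κ / M ^ 2) ≤ ENNReal.ofReal (1 / 2) := ENNReal.ofReal_le_ofReal h6
        _ = 1 / 2 := by
          rw [ENNReal.ofReal_div_of_pos two_pos]
          simp
    refine ⟨hA, ?_⟩
    let f : ℝ≥0 → Ω → ℝ≥0∞ := fun t => quenchedProb γ P' X N Y t (diffusiveBall X M t)
    let E : ℕ → Set Ω := fun n => {ω | 1 / 512 ≤ f ((n : ℝ≥0) + 1) ω}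
    have hE : ∀ n : ℕ, NullMeasurableSet (E n) P := by
      intro n
      have hn : (0 : ℝ≥0) < (n : ℝ≥0) + 1 := by positivity
      have h1 : AEMeasurable (f ((n : ℝ≥0) + 1)) P := (hmb M _ hn).div (hmu _ hn)
      exact nullMeasurableSet_le aemeasurable_const h1
    have hA' : ∀ n : ℕ, 1 / 128 ≤ P (E n) := fun n => hA ((n : ℝ≥0) + 1) le_add_self
    have hF : 1 / 128 ≤ P {ω | ∃ᶠ n in atTop, ω ∈ E n} :=
      hFAT Ω P E hE (1 / 128) (Eventually.of_forall hA')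
    refine le_trans hF (measure_mono fun ω hω => ?_)
    have ht : Tendsto (fun n : ℕ => (n : ℝ≥0) + 1) atTop atTop :=
      tendsto_atTop_mono (fun n => le_self_add) (tendsto_natCast_atTop_atTop (R := ℝ≥0))
    have hω' : ∃ᶠ n : ℕ in atTop, 1 / 512 ≤ f ((n : ℝ≥0) + 1) ω := hω
    exact ht.frequently (p := fun t : ℝ≥0 => 1 / 512 ≤ f t ω) hω'
  refine ⟨key, fun hs => ?_⟩
  have hκ' : (0 : ℝ) < κ := by exact_mod_cast hκ
  obtain ⟨_, h2⟩ := key (√(12 * κ)) (by positivity) (by rw [Real.sq_sqrt (by positivity)])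
  set M : ℝ := √(12 * κ) with hM
  have h4 : ∀ᵐ ω ∂P, ω ∉ {ω | ∃ᶠ t : ℝ≥0 in atTop,
      1 / 512 ≤ quenchedProb γ P' X N Y t (diffusiveBall X M t) ω} := by
    filter_upwards [hs] with ω hω
    intro hfr
    have h5 : ∀ᶠ t : ℝ≥0 in atTop,
        quenchedProb γ P' X N Y t (diffusiveBall X M t) ω < 1 / 512 :=
      (hω M).eventually (gt_mem_nhds (by simp))
    exact hfr (h5.mono fun t ht => not_le.2 ht)
  have h3 : P {ω | ∃ᶠ t : ℝ≥0 in atTop,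
      1 / 512 ≤ quenchedProb γ P' X N Y t (diffusiveBall X M t) ω} = 0 :=
    measure_eq_zero_iff_ae_notMem.2 h4
  rw [h3] at h2
  exact absurd h2 (by simp)

end Pool.Agent.W823.QT
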