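import Pool.Agent.W845.Defs

/-!
# Quenched random walk among mobile traps (MP_26aa9e_pr): definitions

The walk, the traps and the trap field are those of `Pool.Agent.W845.Defs` (`IsWalk`, `trapField`,
`stepLaw`).
-/

set_option autoImplicit false

namespace Pool.Agent.W823.QT

open MeasureTheory ProbabilityTheory Filter Topology Pool.Agent.W845.Traps
open scoped ENNReal NNReal

universe u v

/-! ## The model -/

/-- The Poisson system of traps on `ℤ^d`: `N y` traps start at the site `y` (Poisson of mean `ν`),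
the `j`-th one (`j < N y`) is at `y + Y y j s` at time `s`, a walk with jump rate `ρ`;
everything is independent. -/
structure TrapSystem {d : ℕ} {Ω : Type u} [MeasurableSpace Ω] (P : Measure Ω) (ρ ν : ℝ≥0)
    (N : (Fin d → ℤ) → Ω → ℕ) (Y : (Fin d → ℤ) → ℕ → ℝ≥0 → Ω → Fin d → ℤ) : Prop where
  number_meas : ∀ y, Measurable (N y)
  number : ∀ y, P.map (N y) = poissonMeasure ν
  trap : ∀ y j, IsWalk P ρ (Y y j)
  indepN : iIndepFun N P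
  indepY : iIndepFun (fun (i : (Fin d → ℤ) × ℕ) (ω : Ω) (s : ℝ≥0) => Y i.1 i.2 s ω) P
  indepNY : IndepFun (fun (ω : Ω) (y : Fin d → ℤ) => N y ω)
    (fun (ω : Ω) (i : (Fin d → ℤ) × ℕ) (s : ℝ≥0) => Y i.1 i.2 s ω) P

/-- `∫_0^t ξ(s, x_s) ds` for the trap realisation `ω` and the path `x`. -/
noncomputable def pathExposure {d : ℕ} {Ω : Type u} (N : (Fin d → ℤ) → Ω → ℕ)
    (Y : (Fin d → ℤ) → ℕ → ℝ≥0 → Ω → Fin d → ℤ) (t : ℝ≥0) (x : ℝ≥0 → Fin d → ℤ) (ω : Ω) :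
    ℝ≥0∞ :=
  ∫⁻ s in Set.Icc (0 : ℝ) t, trapField N Y s.toNNReal (x s.toNNReal) ω

/-- `E^X_0[exp (-γ ∫_0^t ξ(s, X_s) ds) ; E]`, a function of the trap realisation `ω`. -/
noncomputable def quenchedWeight {d : ℕ} {Ω : Type u} {Ω' : Type v} [MeasurableSpace Ω']
    (γ : ℝ≥0) (P' : Measure Ω') (X : ℝ≥0 → Ω' → Fin d → ℤ) (N : (Fin d → ℤ) → Ω → ℕ)
    (Y : (Fin d → ℤ) → ℕ → ℝ≥0 → Ω → Fin d → ℤ) (t : ℝ≥0) (E : Set Ω') (ω : Ω) : ℝ≥0∞ :=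
  ∫⁻ ω' in E, EReal.exp (-((γ * pathExposure N Y t (fun s => X s ω') ω : ℝ≥0∞) : EReal)) ∂P'

/-- `P^ξ_{γ,t}(E)`, the quenched path measure of the event `E`, for the trap realisation `ω`. -/
noncomputable def quenchedProb {d : ℕ} {Ω : Type u} {Ω' : Type v} [MeasurableSpace Ω']
    (γ : ℝ≥0) (P' : Measure Ω') (X : ℝ≥0 → Ω' → Fin d → ℤ) (N : (Fin d → ℤ) → Ω → ℕ)
    (Y : (Fin d → ℤ) → ℕ → ℝ≥0 → Ω → Fin d → ℤ) (t : ℝ≥0) (E : Set Ω') (ω : Ω) : ℝ≥0∞ :=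
  quenchedWeight γ P' X N Y t E ω / quenchedWeight γ P' X N Y t Set.univ ω

/-- The event `|X(t)| ≤ M √t` (Euclidean norm). -/
def diffusiveBall {d : ℕ} {Ω' : Type v} (X : ℝ≥0 → Ω' → Fin d → ℤ) (M : ℝ) (t : ℝ≥0) : Set Ω' :=
  {ω' | √(∑ i, ((X t ω' i : ℤ) : ℝ) ^ 2) ≤ M * √(t : ℝ)}

/-- `X` is super-diffusive under the quenched path measure of the trap realisation `ω`: for every
`M`, `P^ξ_{γ,t}(|X(t)| ≤ M √t) → 0` as `t → ∞`. -/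
def SuperDiffusive {d : ℕ} {Ω : Type u} {Ω' : Type v} [MeasurableSpace Ω']
    (γ : ℝ≥0) (P' : Measure Ω') (X : ℝ≥0 → Ω' → Fin d → ℤ) (N : (Fin d → ℤ) → Ω → ℕ)
    (Y : (Fin d → ℤ) → ℕ → ℝ≥0 → Ω → Fin d → ℤ) (ω : Ω) : Prop :=
  ∀ M : ℝ, Tendsto (fun t : ℝ≥0 => quenchedProb γ P' X N Y t (diffusiveBall X M t) ω) atTop (𝓝 0)

end Pool.Agent.W823.QT
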